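import Pool.Agent.V7H59.DN.Lift

/-!
# The value missed by `c i - i`
-/

set_option autoImplicit false

namespace Pool.Agent.V7H32.DN

open Pool.Agent.V7H59.DN

theorem B_miss {h : ℕ} {A E G : ℕ → ℤ} (n : ℕ) (hh : 0 < h) (_h6 : n % 6 = 1 ∨ n % 6 = 5)
    (_ck : ckA h A E = true) (ckl : ckL h A E G = true) (i : ℕ) (hi : i + 1 < 2 * h * n) :
    ¬ ((2 * h * n : ℕ) : ℤ) ∣ (cs h A E G n i - i) -
      (G (2 * h - 2) - ((2 * h - 2 : ℕ) : ℤ) + E (2 * h - 2) * (h * n) - h) := by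
  intro hd
  have hj : i % (2 * h) < 2 * h := Nat.mod_lt _ (by omega)
  have ht : i / (2 * h) < n := Nat.div_lt_of_lt_mul (by omega)
  have ei := Nat.div_add_mod i (2 * h)
  unfold ckL at ckl
  simp only [Bool.and_eq_true, decide_eq_true_eq, List.all_eq_true, List.mem_range,
    Bool.not_eq_true', decide_eq_false_iff_not] at ckl
  obtain ⟨⟨⟨⟨l1, l2⟩, l3⟩, l4⟩, l5⟩ := ckl
  unfold cs at hd
  generalize i % (2 * h) = j at *
  generalize i / (2 * h) = t at *
  have eiz : (i : ℤ) = 2 * h * t + j := by rw [← ei]; push_cast; ring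
  have hd' : (2 * (h : ℤ) * n) ∣ (h : ℤ) * ((A j - 2) * t + 1) +
      (G j - j - (G (2 * h - 2) - ((2 * h - 2 : ℕ) : ℤ))) + (E j - E (2 * h - 2)) * (h * n) := by
    have e : (h : ℤ) * ((A j - 2) * t + 1) +
      (G j - j - (G (2 * h - 2) - ((2 * h - 2 : ℕ) : ℤ))) + (E j - E (2 * h - 2)) * (h * n) =
      (h * (A j * t) + G j + E j * (h * n)) - i -
        (G (2 * h - 2) - ((2 * h - 2 : ℕ) : ℤ) + E (2 * h - 2) * (h * n) - h) := by
      rw [eiz]; ring
    have e2 : ((2 * h * n : ℕ) : ℤ) = 2 * (h : ℤ) * n := by push_cast; ring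
    rw [e, ← e2]
    exact hd
  obtain ⟨g, hg, h2⟩ := key1 _ _ _ _ _ (by exact_mod_cast hh) hd'
  have hz : (h : ℤ) ≠ 0 := by omega
  by_cases c1 : j = 2 * h - 2
  · subst c1
    have hg0 : g = 0 := by
      have : (h : ℤ) * g = h * 0 := by rw [← hg]; ring
      exact mul_left_cancel₀ hz this
    subst hg0
    rw [l2] at h2
    refine L3 n (t + 1) (by omega) (by omega) ?_
    have e : (3 - 2 : ℤ) * t + 1 + 0 + (E (2 * h - 2) - E (2 * h - 2)) * n = t + 1 := by ring
    rwa [e] at h2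
  · by_cases c2 : j = 2 * h - 1
    · subst c2
      have hg2 : g = -2 := by
        have e1 : ((2 * h - 1 : ℕ) : ℤ) = 2 * h - 1 := by omega
        have e2 : ((2 * h - 2 : ℕ) : ℤ) = 2 * h - 2 := by omega
        have : (h : ℤ) * g = h * (-2) := by rw [← hg, l4, e1, e2]; ring
        exact mul_left_cancel₀ hz this
      subst hg2
      rw [l1, l3] at h2
      refine L3' n (-t - 1) (by omega) (by omega) ?_
      have e : (1 - 2 : ℤ) * t + 1 + -2 + (E (2 * h - 2) - E (2 * h - 2)) * n = -t - 1 := by ring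
      rwa [e] at h2
    · refine l5 j (by omega) ?_
      rw [hg]
      exact Int.mul_emod_right _ _

end Pool.Agent.V7H32.DN
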